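import Mathlib

namespace Pool.Agent.Results.MP_12343a_ag.AperyLimitsDiverge

open Filter Topology MvPolynomial

/-- The ideal of relations `h^(n+2) = 0`, `ξ (ξ - n h) = 0` in `ℂ[h, ξ]` (`h` is variable `0`,
`ξ` is variable `1`). -/
noncomputable def relations (n : ℕ) : Ideal (MvPolynomial (Fin 2) ℂ) :=
  Ideal.span {X 0 ^ (n + 2), X 1 * (X 1 - C (n : ℂ) * X 0)}

/-- The cohomology ring `H^•(F_n; ℂ) = ℂ[h, ξ]/(h^(n+2), ξ (ξ - n h))` of the toric manifold
`F_n = P(O ⊕ O(n))` over `P^(n+1)`. -/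
abbrev Coh (n : ℕ) : Type := MvPolynomial (Fin 2) ℂ ⧸ relations n

/-- The class `h`: pull-back of the hyperplane class of `P^(n+1)`. The manifold has `n + 2`
torus-invariant prime divisors of class `h`. -/
noncomputable def h (n : ℕ) : Coh n := Ideal.Quotient.mk (relations n) (X 0)

/-- The class `ξ` of the torus-invariant section with normal bundle `O(n)`. -/
noncomputable def xi (n : ℕ) : Coh n := Ideal.Quotient.mk (relations n) (X 1)

/-- The class `s = ξ - n h` of the torus-invariant section with normal bundle `O(-n)`. -/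
noncomputable def s (n : ℕ) : Coh n := xi n - n * h n

/-- `c₁(F_n)`, the sum of the classes of all torus-invariant prime divisors. It equals
`2 (h + ξ)`. -/
noncomputable def c1 (n : ℕ) : Coh n := (n + 2) * h n + xi n + s n

/-- The pairing with the point class `[pt] ∈ H_0(F_n)`: the degree zero part of a cohomology
class. -/
noncomputable def pt (n : ℕ) : Coh n →ₐ[ℂ] ℂ :=
  Ideal.Quotient.liftₐ (relations n) (aeval (fun _ => (0 : ℂ))) (by
    intro a ha
    have : relations n ≤ RingHom.ker (aeval (fun _ => (0 : ℂ)) :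
        MvPolynomial (Fin 2) ℂ →ₐ[ℂ] ℂ) := by
      rw [relations, Ideal.span_le]
      rintro x (rfl | rfl)
      · simp
      · simp
    exact this ha)

/-- Givental's factor of a torus-invariant divisor class `D` whose intersection number with the
curve class is `k`, at `z = 1`:
`∏_{m ≤ 0} (D + m) / ∏_{m ≤ k} (D + m)`. -/
noncomputable def factor {R : Type} [CommRing R] (D : R) (k : ℤ) : R :=
  (∏ m ∈ Finset.Icc 1 k.toNat, Ring.inverse (D + (m : R))) *
    ∏ m ∈ Finset.range (-k).toNat, (D - (m : R))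

/-- The coefficient `J_N` of the small `J`-function of `F_n`, by Givental's formula: the sum over
the effective curve classes `d = (a, b)`, with `a = h · d` and `b = ξ · d`, such that
`c₁ · d = 2 a + 2 b = N`, of the product over the `n + 4` torus-invariant prime divisors. -/
noncomputable def J (n N : ℕ) : Coh n :=
  ∑ a ∈ Finset.range (N + 1), ∑ b ∈ Finset.range (N + 1),
    if 2 * a + 2 * b = N then
      factor (h n) a ^ (n + 2) * factor (xi n) b * factor (s n) ((b : ℤ) - n * a)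
    else 0

/-- `Γ(1 + x)` for a class `x` of positive degree: the Taylor polynomial of the Gamma function at
`1`, up to the dimension `n + 2` of `F_n`. -/
noncomputable def gammaOnePlus (n : ℕ) (x : Coh n) : Coh n :=
  ∑ k ∈ Finset.range (n + 3), (iteratedDeriv k Complex.Gamma 1 / (k.factorial : ℂ)) • x ^ k

/-- The Gamma class of `F_n`: the product of `Γ(1 + D)` over all torus-invariant prime divisors
`D`. -/
noncomputable def gammaClass (n : ℕ) : Coh n :=
  gammaOnePlus n (h n) ^ (n + 2) * gammaOnePlus n (xi n) * gammaOnePlus n (s n)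

/-- A homology class `α` (a linear functional on cohomology) with `α ∩ c₁ = 0`. -/
def Primitive (n : ℕ) (α : Coh n →ₗ[ℂ] ℂ) : Prop := ∀ β : Coh n, α (c1 n * β) = 0

/-! ### Relations in the cohomology ring -/

lemma h_pow (n : ℕ) : h n ^ (n + 2) = 0 := by
  have : (X 0 ^ (n + 2) : MvPolynomial (Fin 2) ℂ) ∈ relations n :=
    Ideal.subset_span (by simp)
  simpa [h] using (Ideal.Quotient.eq_zero_iff_mem.2 this)

lemma xi_mul (n : ℕ) : xi n * (xi n - n * h n) = 0 := by
  have : (X 1 * (X 1 - C (n : ℂ) * X 0) : MvPolynomial (Fin 2) ℂ) ∈ relations n :=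
    Ideal.subset_span (by simp)
  simpa [h, xi] using (Ideal.Quotient.eq_zero_iff_mem.2 this)

lemma c1_eq (n : ℕ) : c1 n = 2 * (h n + xi n) := by
  simp only [c1, s]; ring

lemma nil_h (n : ℕ) : IsNilpotent (h n) := ⟨n + 2, h_pow n⟩

lemma xi_pow (n k : ℕ) : xi n ^ (k + 1) = (n * h n) ^ k * xi n := by
  induction k with
  | zero => simp
  | succ k ih =>
    have h2 : xi n * xi n = xi n * (n * h n) := by
      have := xi_mul n
      linear_combination this
    calc xi n ^ (k + 1 + 1) = xi n ^ (k + 1) * xi n := by ring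
      _ = (n * h n) ^ k * (xi n * xi n) := by rw [ih]; ring
      _ = _ := by rw [h2]; ring

lemma nil_xi (n : ℕ) : IsNilpotent (xi n) :=
  ⟨n + 2 + 1, by rw [xi_pow, mul_pow, h_pow]; ring⟩

lemma nil_s (n : ℕ) : IsNilpotent (s n) := by
  unfold s
  exact (Commute.all _ _).isNilpotent_sub (nil_xi n) ((Commute.all _ _).isNilpotent_mul_left (nil_h n))

lemma isUnit_add {n : ℕ} {x : Coh n} (hx : IsNilpotent x) {m : ℕ} (hm : m ≠ 0) :
    IsUnit (x + (m : Coh n)) := by
  apply IsNilpotent.isUnit_add_right_of_commute hx _ (Commute.all _ _)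
  have : ((m : ℕ) : Coh n) = algebraMap ℂ (Coh n) (m : ℂ) := by simp
  rw [this]
  exact (IsUnit.mk0 (m : ℂ) (by exact_mod_cast hm)).map _


/-! ### Reduction to dual numbers -/

open DualNumber in
/-- The quotient `Coh n → Coh n/(c₁) = ℂ[ε]`. -/
noncomputable def phi (n : ℕ) : Coh n →ₐ[ℂ] DualNumber ℂ :=
  Ideal.Quotient.liftₐ (relations n) (aeval ![(DualNumber.eps : DualNumber ℂ), -DualNumber.eps]) (by
    intro a ha
    have : relations n ≤ RingHom.ker (aeval ![(DualNumber.eps : DualNumber ℂ), -DualNumber.eps] :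
        MvPolynomial (Fin 2) ℂ →ₐ[ℂ] DualNumber ℂ) := by
      rw [relations, Ideal.span_le]
      rintro x (rfl | rfl)
      · simp only [SetLike.mem_coe, RingHom.mem_ker, map_pow, aeval_X, Matrix.cons_val_zero]
        rw [pow_add, pow_two, DualNumber.eps_mul_eps, mul_zero]
      · simp only [SetLike.mem_coe, RingHom.mem_ker, map_mul, map_sub, aeval_X, aeval_C,
          Matrix.cons_val_zero, Matrix.cons_val_one]
        have h2 : (DualNumber.eps : DualNumber ℂ) * DualNumber.eps = 0 := DualNumber.eps_mul_eps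
        linear_combination (1 + algebraMap ℂ (DualNumber ℂ) (n : ℂ)) * h2
    exact this ha)

lemma phi_h (n : ℕ) : phi n (h n) = DualNumber.eps := by
  change (aeval ![(DualNumber.eps : DualNumber ℂ), -DualNumber.eps] :
        MvPolynomial (Fin 2) ℂ →ₐ[ℂ] DualNumber ℂ) (X 0) = _
  simp

lemma phi_xi (n : ℕ) : phi n (xi n) = -DualNumber.eps := by
  change (aeval ![(DualNumber.eps : DualNumber ℂ), -DualNumber.eps] :
        MvPolynomial (Fin 2) ℂ →ₐ[ℂ] DualNumber ℂ) (X 1) = _
  simp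

lemma phi_s (n : ℕ) : phi n (s n) = -((n + 1 : ℂ) • DualNumber.eps) := by
  simp only [s, map_sub, map_mul, map_natCast, phi_h, phi_xi]
  rw [add_smul, one_smul]
  have : ((n : ℕ) : DualNumber ℂ) * DualNumber.eps = (n : ℂ) • DualNumber.eps := by
    rw [Nat.cast_smul_eq_nsmul, nsmul_eq_mul]
  rw [this]; ring

lemma decomp (n : ℕ) (x : Coh n) : ∃ u v : ℂ, ∃ y : Coh n,
    x = algebraMap ℂ (Coh n) u + algebraMap ℂ (Coh n) v * h n + c1 n * y := by
  have hh : ∃ y : Coh n, h n * h n = c1 n * y := by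
    -- `ξ (ξ - n h) = 0` and `ξ = c₁/2 - h`
    have h1 := xi_mul n
    have h2 : algebraMap ℂ (Coh n) (1 / (2 * (n + 1))) * (2 * (n + 1)) = 1 := by
      have : (2 * ((n : Coh n) + 1)) = algebraMap ℂ (Coh n) (2 * (n + 1)) := by
        rw [map_mul, map_add, map_one, map_natCast, map_ofNat]
      rw [this, ← map_mul]
      have h3 : (1 / (2 * ((n : ℂ) + 1)) * (2 * (n + 1))) = 1 := by
        have : (n : ℂ) + 1 ≠ 0 := by exact_mod_cast Nat.succ_ne_zero n
        field_simp
      rw [h3, map_one]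
    -- (n+1) h² = h (n+1) h; (ξ + h)(ξ - n h) = h (ξ - n h) = h (ξ + h) - (n+1) h²
    refine ⟨algebraMap ℂ (Coh n) (1 / (2 * (n + 1))) * (h n - (xi n - n * h n)), ?_⟩
    rw [c1_eq]
    linear_combination (-(h n * h n)) * h2 + 2 * algebraMap ℂ (Coh n) (1 / (2 * (n + 1))) * h1
  obtain ⟨w, hw⟩ := hh
  obtain ⟨p, rfl⟩ := Ideal.Quotient.mk_surjective x
  induction p using MvPolynomial.induction_on with
  | C a => exact ⟨a, 0, 0, by simp; rfl⟩
  | add p q hp hq =>
    obtain ⟨u, v, y, h1⟩ := hp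
    obtain ⟨u', v', y', h2⟩ := hq
    refine ⟨u + u', v + v', y + y', ?_⟩
    rw [map_add, h1, h2, map_add, map_add]; ring
  | mul_X p i hp =>
    obtain ⟨u, v, y, h1⟩ := hp
    have hi : i = 0 ∨ i = 1 := by
      fin_cases i
      · left; rfl
      · right; rfl
    rcases hi with rfl | rfl
    · refine ⟨0, u, algebraMap ℂ (Coh n) v * w + y * h n, ?_⟩
      rw [map_mul, h1]
      change _ * h n = _
      rw [map_zero]
      linear_combination (algebraMap ℂ (Coh n) v) * hw
    · refine ⟨0, -u, algebraMap ℂ (Coh n) (1/2) * algebraMap ℂ (Coh n) u +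
        algebraMap ℂ (Coh n) v * (algebraMap ℂ (Coh n) (1/2) * h n - w) + y * xi n, ?_⟩
      rw [map_mul, h1]
      change _ * xi n = _
      have h4 : algebraMap ℂ (Coh n) (1/2) * 2 = 1 := by
        have : (2 : Coh n) = algebraMap ℂ (Coh n) 2 := by rw [map_ofNat]
        rw [this, ← map_mul]; norm_num
      have h5 : c1 n = 2 * (h n + xi n) := c1_eq n
      rw [map_zero, map_neg]
      linear_combination (algebraMap ℂ (Coh n) u + algebraMap ℂ (Coh n) v * h n) * (-xi n - h n) * h4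
        + algebraMap ℂ (Coh n) (1/2) * (algebraMap ℂ (Coh n) u + algebraMap ℂ (Coh n) v * h n) * (-h5)
        - algebraMap ℂ (Coh n) v * hw

lemma phi_c1 (n : ℕ) : phi n (c1 n) = 0 := by
  rw [c1_eq, map_mul, map_add, phi_h, phi_xi]; ring

lemma functional_eq {n : ℕ} {α : Coh n →ₗ[ℂ] ℂ} (hα : Primitive n α) (x : Coh n) :
    α x = (phi n x).fst * α 1 + (phi n x).snd * α (h n) := by
  obtain ⟨u, v, y, rfl⟩ := decomp n x
  have e1 : phi n (algebraMap ℂ (Coh n) u + algebraMap ℂ (Coh n) v * h n + c1 n * y)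
      = algebraMap ℂ _ u + v • DualNumber.eps := by
    rw [map_add, map_add, map_mul, map_mul, phi_c1, phi_h, AlgHom.commutes, AlgHom.commutes,
      zero_mul, add_zero, Algebra.smul_def]
  have e2 : α (algebraMap ℂ (Coh n) u + algebraMap ℂ (Coh n) v * h n + c1 n * y)
      = u * α 1 + v * α (h n) := by
    rw [map_add, map_add, hα, add_zero, ← Algebra.smul_def, map_smul, Algebra.algebraMap_eq_smul_one,
      map_smul, smul_eq_mul, smul_eq_mul]
  rw [e1, e2]
  simp [TrivSqZeroExt.algebraMap_eq_inl]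

lemma pt_eq (n : ℕ) (x : Coh n) : pt n x = (phi n x).fst := by
  obtain ⟨u, v, y, rfl⟩ := decomp n x
  have hh : pt n (h n) = 0 := by
    change (aeval (fun _ => (0 : ℂ)) : MvPolynomial (Fin 2) ℂ →ₐ[ℂ] ℂ) (X 0) = _
    simp
  have hx : pt n (xi n) = 0 := by
    change (aeval (fun _ => (0 : ℂ)) : MvPolynomial (Fin 2) ℂ →ₐ[ℂ] ℂ) (X 1) = _
    simp
  have hc : pt n (c1 n) = 0 := by rw [c1_eq, map_mul, map_add, hh, hx]; simp
  have e1 : phi n (algebraMap ℂ (Coh n) u + algebraMap ℂ (Coh n) v * h n + c1 n * y)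
      = algebraMap ℂ _ u + v • DualNumber.eps := by
    rw [map_add, map_add, map_mul, map_mul, phi_c1, phi_h, AlgHom.commutes, AlgHom.commutes,
      zero_mul, add_zero, Algebra.smul_def]
  have e2 : pt n (algebraMap ℂ (Coh n) u + algebraMap ℂ (Coh n) v * h n + c1 n * y)
      = u := by
    rw [map_add, map_add, map_mul, map_mul, hc, hh, AlgHom.commutes, AlgHom.commutes]
    simp
  rw [e1, e2]
  simp [TrivSqZeroExt.algebraMap_eq_inl]

/-- The factor commutes with ring homomorphisms on nilpotent elements. -/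
lemma map_factor {n : ℕ} {D : Coh n} (hD : IsNilpotent D) (k : ℤ) :
    phi n (factor D k) = factor (phi n D) k := by
  unfold factor
  rw [map_mul, map_prod, map_prod]
  congr 1
  · apply Finset.prod_congr rfl
    intro m hm
    rw [Finset.mem_Icc] at hm
    have hu := isUnit_add hD (m := m) (by omega)
    obtain ⟨v, hv⟩ := hu
    rw [← hv, Ring.inverse_unit]
    have : phi n D + (m : DualNumber ℂ) = (Units.map (phi n : Coh n →* DualNumber ℂ) v : DualNumber ℂ) := by
      rw [Units.coe_map, hv]; simp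
    rw [this, Ring.inverse_unit]
    rfl
  · apply Finset.prod_congr rfl
    intro m _
    rw [map_sub, map_natCast]

/-- Harmonic numbers. -/
noncomputable def H (k : ℕ) : ℂ := ∑ m ∈ Finset.Icc 1 k, (1 / (m : ℂ))

lemma H_succ (k : ℕ) : H (k + 1) = H k + 1 / ((k + 1 : ℕ) : ℂ) := by
  unfold H
  rw [Finset.sum_Icc_succ_top (by omega)]

lemma inv_eq (u : ℂ) {c : ℂ} (hc : c ≠ 0) :
    Ring.inverse (u • (DualNumber.eps : DualNumber ℂ) + TrivSqZeroExt.inl c) =
        TrivSqZeroExt.inl (1 / c) + TrivSqZeroExt.inr (-u / c ^ 2) := by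
  have h1 : (u • (DualNumber.eps : DualNumber ℂ) + TrivSqZeroExt.inl c) *
      (TrivSqZeroExt.inl (1 / c) + TrivSqZeroExt.inr (-u / c ^ 2)) = 1 := by
    ext
    · simp [hc]
    · simp
      field_simp
      ring
  have hu : IsUnit (u • (DualNumber.eps : DualNumber ℂ) + TrivSqZeroExt.inl c) :=
    IsUnit.of_mul_eq_one _ h1
  have h2 := Ring.inverse_mul_cancel _ hu
  calc _ = Ring.inverse (u • (DualNumber.eps : DualNumber ℂ) + TrivSqZeroExt.inl c) *
      ((u • (DualNumber.eps : DualNumber ℂ) + TrivSqZeroExt.inl c) *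
      (TrivSqZeroExt.inl (1 / c) + TrivSqZeroExt.inr (-u / c ^ 2))) := by rw [h1, mul_one]
    _ = _ := by rw [← mul_assoc, h2, one_mul]

lemma factor_nonneg (u : ℂ) (k : ℕ) :
    factor (u • (DualNumber.eps : DualNumber ℂ)) (k : ℤ) =
      TrivSqZeroExt.inl (1 / (k.factorial : ℂ)) +
        TrivSqZeroExt.inr (-(u * H k) / (k.factorial : ℂ)) := by
  unfold factor
  have h0 : (-(k : ℤ)).toNat = 0 := by omega
  rw [h0, Finset.range_zero, Finset.prod_empty, mul_one, Int.toNat_natCast]
  induction k with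
  | zero => simp [H]
  | succ k ih =>
    rw [Finset.prod_Icc_succ_top (by omega), ih (by omega)]
    have hc : ((k + 1 : ℕ) : ℂ) ≠ 0 := by exact_mod_cast Nat.succ_ne_zero k
    have e := inv_eq u hc
    have e2 : (TrivSqZeroExt.inl ((k + 1 : ℕ) : ℂ) : DualNumber ℂ) = ((k + 1 : ℕ) : DualNumber ℂ) := by
      simp
    rw [e2] at e
    rw [e, H_succ, Nat.factorial_succ]
    have hf : (k.factorial : ℂ) ≠ 0 := by exact_mod_cast k.factorial_ne_zero
    ext
    · simp
    · simp only [TrivSqZeroExt.snd_mul, TrivSqZeroExt.fst_add, TrivSqZeroExt.snd_add,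
        TrivSqZeroExt.fst_inl, TrivSqZeroExt.snd_inl, TrivSqZeroExt.fst_inr, TrivSqZeroExt.snd_inr,
        smul_eq_mul, MulOpposite.smul_eq_mul_unop, MulOpposite.unop_op, Nat.cast_mul]
      field_simp
      ring

lemma factor_neg (u : ℂ) (k : ℕ) :
    factor (u • (DualNumber.eps : DualNumber ℂ)) (-((k : ℤ) + 1)) =
        TrivSqZeroExt.inr (u * ((-1) ^ k * (k.factorial : ℂ))) := by
  unfold factor
  have h0 : (-((k : ℤ) + 1)).toNat = 0 := by omega
  have h1 : (- -((k : ℤ) + 1)).toNat = k + 1 := by omega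
  rw [h0, h1, Finset.Icc_eq_empty (by omega), Finset.prod_empty, one_mul]
  induction k with
  | zero =>
    ext <;> simp
  | succ k ih =>
    rw [Finset.prod_range_succ, ih (by omega) (by omega), Nat.factorial_succ]
    ext
    · simp
    · simp only [TrivSqZeroExt.snd_mul, TrivSqZeroExt.fst_sub, TrivSqZeroExt.snd_sub,
        TrivSqZeroExt.fst_inr, TrivSqZeroExt.snd_inr, TrivSqZeroExt.fst_smul,
        smul_eq_mul, MulOpposite.smul_eq_mul_unop, MulOpposite.unop_op, Nat.cast_mul,
        DualNumber.fst_eps, TrivSqZeroExt.fst_natCast]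
      ring

/-! ### The two sums -/

/-- The summand of `⟨[pt], J_{2M}⟩`. -/
noncomputable def g (n a b : ℕ) : ℝ :=
  if n * a ≤ b then 1 / ((a.factorial : ℝ) ^ (n + 2) * b.factorial * (b - n * a).factorial) else 0

/-- The summand coming from the classes with `s · d < 0`. -/
noncomputable def bad (n a b : ℕ) : ℝ :=
  if n * a ≤ b then 0 else
    ((n * a - b - 1).factorial : ℝ) / ((a.factorial : ℝ) ^ (n + 2) * b.factorial)

/-- `⟨[pt], J_{2M}⟩`. -/
noncomputable def G (n M : ℕ) : ℝ := ∑ a ∈ Finset.range (M + 1), g n a (M - a)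

noncomputable def B (n M : ℕ) : ℝ := ∑ a ∈ Finset.range (M + 1), bad n a (M - a)

lemma sum_if {A : Type} [AddCommMonoid A] (f : ℕ → ℕ → A) (M : ℕ) :
    (∑ a ∈ Finset.range (2 * M + 1), ∑ b ∈ Finset.range (2 * M + 1),
      if 2 * a + 2 * b = 2 * M then f a b else 0) = ∑ a ∈ Finset.range (M + 1), f a (M - a) := by
  symm
  apply Finset.sum_subset_zero_on_sdiff
  · intro x; simp only [Finset.mem_range]; omega
  · intro x hx
    simp only [Finset.mem_sdiff, Finset.mem_range] at hx
    apply Finset.sum_eq_zero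
    intro b _
    rw [if_neg (by omega)]
  · intro x hx
    simp only [Finset.mem_range] at hx
    symm
    rw [Finset.sum_eq_single (M - x)]
    · rw [if_pos (by omega)]
    · intro b _ hb
      rw [if_neg (by omega)]
    · intro hb
      simp only [Finset.mem_range] at hb
      omega

/-- The summand of `J_{2M}`. -/
noncomputable def term (n a b : ℕ) : Coh n :=
  factor (h n) a ^ (n + 2) * factor (xi n) b * factor (s n) ((b : ℤ) - n * a)

lemma J_eq (n M : ℕ) : J n (2 * M) = ∑ a ∈ Finset.range (M + 1), term n a (M - a) := by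
  unfold J
  exact sum_if (fun a b => term n a b) M

lemma phi_factor_h (n a : ℕ) : phi n (factor (h n) (a : ℤ)) =
    TrivSqZeroExt.inl (1 / (a.factorial : ℂ)) +
        TrivSqZeroExt.inr (-(H a) / (a.factorial : ℂ)) := by
  rw [map_factor (nil_h n), phi_h]
  have := factor_nonneg 1 a
  rw [one_smul, one_mul] at this
  exact this

lemma phi_factor_xi (n b : ℕ) : phi n (factor (xi n) (b : ℤ)) =
    TrivSqZeroExt.inl (1 / (b.factorial : ℂ)) +
        TrivSqZeroExt.inr ((H b) / (b.factorial : ℂ)) := by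
  rw [map_factor (nil_xi n), phi_xi]
  have := factor_nonneg (-1) b
  rw [neg_smul, one_smul, neg_one_mul, neg_neg] at this
  exact this

lemma phi_factor_s (n c : ℕ) : phi n (factor (s n) (c : ℤ)) =
    TrivSqZeroExt.inl (1 / (c.factorial : ℂ)) +
        TrivSqZeroExt.inr ((n + 1) * (H c) / (c.factorial : ℂ)) := by
  rw [map_factor (nil_s n), phi_s]
  have := factor_nonneg (-(n + 1)) c
  rw [neg_smul] at this
  rw [this]
  congr 2
  ring

lemma phi_factor_s_neg (n c : ℕ) : phi n (factor (s n) (-((c : ℤ) + 1))) =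
        TrivSqZeroExt.inr (-((n + 1) * ((-1) ^ c * (c.factorial : ℂ)))) := by
  rw [map_factor (nil_s n), phi_s]
  have := factor_neg (-(n + 1)) c
  rw [neg_smul] at this
  rw [this]
  congr 1
  ring

lemma pow_eq (x y : ℂ) (k : ℕ) :
    (TrivSqZeroExt.inl x + TrivSqZeroExt.inr y : DualNumber ℂ) ^ k =
      TrivSqZeroExt.inl (x ^ k) + TrivSqZeroExt.inr (k * x ^ (k - 1) * y) := by
  ext
  · simp
  · simp [TrivSqZeroExt.snd_pow]
    ring

lemma mul_eq (x y z w : ℂ) :
    (TrivSqZeroExt.inl x + TrivSqZeroExt.inr y : DualNumber ℂ) *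
     (TrivSqZeroExt.inl z + TrivSqZeroExt.inr w : DualNumber ℂ)  =
      TrivSqZeroExt.inl (x * z) + TrivSqZeroExt.inr (x * w + y * z) := by
  ext
  · simp
  · simp

lemma phi_term_pos (n a b c : ℕ) (hc : b = n * a + c) : phi n (term n a b) =
    TrivSqZeroExt.inl ((g n a b : ℝ) : ℂ) +
      TrivSqZeroExt.inr (((g n a b : ℝ) : ℂ) * (-(n + 2) * H a + H b + (n + 1) * H c)) := by
  have e : (b : ℤ) - n * a = (c : ℤ) := by rw [hc]; push_cast; ring
  have ec : b - n * a = c := by omega
  have ha : (a.factorial : ℂ) ≠ 0 := by exact_mod_cast a.factorial_ne_zero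
  have hb : (b.factorial : ℂ) ≠ 0 := by exact_mod_cast b.factorial_ne_zero
  have hcf : (c.factorial : ℂ) ≠ 0 := by exact_mod_cast c.factorial_ne_zero
  rw [term, e, map_mul, map_mul, map_pow, phi_factor_h, phi_factor_xi, phi_factor_s, pow_eq,
    mul_eq, mul_eq]
  unfold g
  rw [if_pos (by omega), ec]
  congr 2
  · push_cast
    rw [div_pow, one_pow]
    field_simp
  · push_cast
    rw [div_pow, one_pow, div_pow, one_pow]
    field_simp
    ring

lemma phi_term_neg (n a b c : ℕ) (hc : n * a = b + c + 1) : phi n (term n a b) =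
      TrivSqZeroExt.inr (-((n + 1) * (-1) ^ c * ((bad n a b : ℝ) : ℂ))) := by
  have e : (b : ℤ) - n * a = -((c : ℤ) + 1) := by
    have : ((n * a : ℕ) : ℤ) = b + c + 1 := by rw [hc]; push_cast; ring
    push_cast at this
    rw [this]; ring
  have ec : n * a - b - 1 = c := by omega
  have ha : (a.factorial : ℂ) ≠ 0 := by exact_mod_cast a.factorial_ne_zero
  have hb : (b.factorial : ℂ) ≠ 0 := by exact_mod_cast b.factorial_ne_zero
  rw [term, e, map_mul, map_mul, map_pow, phi_factor_h, phi_factor_xi, phi_factor_s_neg, pow_eq,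
    mul_eq]
  unfold bad
  rw [if_neg (by omega), ec]
  ext
  · simp
  · simp
    field_simp

/-! ### Estimates -/

lemma norm_H (k : ℕ) : ‖H k‖ ≤ k := by
  unfold H
  calc ‖∑ m ∈ Finset.Icc 1 k, (1 / (m : ℂ))‖ ≤ ∑ m ∈ Finset.Icc 1 k, ‖(1 / (m : ℂ))‖ :=
        norm_sum_le _ _
    _ ≤ ∑ m ∈ Finset.Icc 1 k, (1 : ℝ) := by
        apply Finset.sum_le_sum
        intro m hm
        rw [Finset.mem_Icc] at hm
        rw [norm_div, norm_one, Complex.norm_natCast]
        rw [div_le_one (by exact_mod_cast (by omega : 0 < m))]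
        exact_mod_cast hm.1
    _ = k := by simp

lemma g_nonneg (n a b : ℕ) : 0 ≤ g n a b := by
  unfold g; split_ifs
  · positivity
  · exact le_rfl

lemma bad_nonneg (n a b : ℕ) : 0 ≤ bad n a b := by
  unfold bad; split_ifs
  · exact le_rfl
  · positivity

lemma G_pos (n M : ℕ) : 0 < G n M := by
  unfold G
  apply Finset.sum_pos' (fun a _ => g_nonneg n a _)
  refine ⟨0, by simp, ?_⟩
  unfold g
  rw [if_pos (by simp)]
  positivity

/-- The contribution of one curve class to the coefficient of `ε`. -/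
lemma snd_term {n : ℕ} (hn : Odd n) {M a b : ℕ} (hab : a + b = M) :
    ‖(phi n (term n a b)).snd - (-1) ^ M * (n + 1) * ((bad n a b : ℝ) : ℂ)‖ ≤
      (2 * n + 4) * M * g n a b := by
  rcases le_or_gt (n * a) b with hle | hlt
  · obtain ⟨c, hc⟩ := Nat.exists_eq_add_of_le hle
    rw [phi_term_pos n a b c hc]
    have hb : bad n a b = 0 := by unfold bad; rw [if_pos hle]
    have hs : (TrivSqZeroExt.inl ((g n a b : ℝ) : ℂ) +
      TrivSqZeroExt.inr (((g n a b : ℝ) : ℂ) * (-(n + 2) * H a + H b + (n + 1) * H c)) :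
        DualNumber ℂ).snd = ((g n a b : ℝ) : ℂ) * (-(n + 2) * H a + H b + (n + 1) * H c) := by
      simp
    rw [hs, hb, Complex.ofReal_zero, mul_zero, sub_zero, norm_mul, Complex.norm_real,
      Real.norm_of_nonneg (g_nonneg n a b), mul_comm]
    apply mul_le_mul_of_nonneg_right _ (g_nonneg n a b)
    have h1 : ‖(-((n : ℂ) + 2) * H a)‖ ≤ (n + 2) * a := by
      rw [norm_mul, norm_neg]
      have : ‖(n : ℂ) + 2‖ = n + 2 := by
        have : ((n : ℂ) + 2) = ((n + 2 : ℕ) : ℂ) := by push_cast; ring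
        rw [this, Complex.norm_natCast]; push_cast; ring
      rw [this]
      exact mul_le_mul_of_nonneg_left (norm_H a) (by positivity)
    have h2 : ‖(((n : ℂ) + 1) * H c)‖ ≤ (n + 1) * c := by
      rw [norm_mul]
      have : ‖(n : ℂ) + 1‖ = n + 1 := by
        have : ((n : ℂ) + 1) = ((n + 1 : ℕ) : ℂ) := by push_cast; ring
        rw [this, Complex.norm_natCast]; push_cast; ring
      rw [this]
      exact mul_le_mul_of_nonneg_left (norm_H c) (by positivity)
    have h3 := norm_H b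
    have hM : (M : ℝ) = a + b := by rw [← hab]; push_cast; ring
    have hbc : (b : ℝ) = n * a + c := by rw [hc]; push_cast; ring
    have hn0 : (0 : ℝ) ≤ n := by positivity
    have ha0 : (0 : ℝ) ≤ a := by positivity
    have hc0 : (0 : ℝ) ≤ c := by positivity
    calc ‖-((n : ℂ) + 2) * H a + H b + (n + 1) * H c‖
        ≤ ‖-((n : ℂ) + 2) * H a‖ + ‖H b‖ + ‖((n : ℂ) + 1) * H c‖ := norm_add₃_le
      _ ≤ (n + 2) * a + b + (n + 1) * c := by gcongr
      _ ≤ (2 * n + 4) * M := by
        rw [hM, hbc]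
        have h5 : 0 ≤ (n : ℝ) * a := by positivity
        have h6 : 0 ≤ (n : ℝ) * c := by positivity
        have h7 : 0 ≤ (n : ℝ) * (n * a) := by positivity
        nlinarith
  · obtain ⟨c, hc⟩ := Nat.exists_eq_add_of_lt hlt
    rw [phi_term_neg n a b c hc]
    have hg : g n a b = 0 := by unfold g; rw [if_neg (by omega)]
    rw [hg, mul_zero]
    have hsgn : (-1 : ℂ) ^ c = -(-1) ^ M := by
      have h1 : Odd (c + M) := by
        obtain ⟨k, hk⟩ := hn
        have : b + c + 1 = (2 * k + 1) * a := by rw [← hc, hk]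
        rw [← hab]
        refine ⟨(k + 1) * a - 1, ?_⟩
        have hpos : 0 < a := by
          rcases Nat.eq_zero_or_pos a with h0 | h0
          · rw [h0] at this; omega
          · exact h0
        have h8 : (2 * k + 1) * a + a = 2 * ((k + 1) * a) := by ring
        have h9 : 0 < (k + 1) * a := by positivity
        omega
      have h2 : (-1 : ℂ) ^ c * (-1) ^ M = -1 := by
        rw [← pow_add]; exact h1.neg_one_pow
      have h3 : (-1 : ℂ) ^ M * (-1) ^ M = 1 := by
        rw [← mul_pow]; norm_num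
      linear_combination (-1 : ℂ) ^ M * h2 - (-1 : ℂ) ^ c * h3
    rw [hsgn]
    simp only [TrivSqZeroExt.snd_inr]
    have : -(((n : ℂ) + 1) * -(-1) ^ M * ((bad n a b : ℝ) : ℂ)) -
        (-1) ^ M * (n + 1) * ((bad n a b : ℝ) : ℂ) = 0 := by ring
    rw [this, norm_zero]

lemma fst_term (n a b : ℕ) : (phi n (term n a b)).fst = ((g n a b : ℝ) : ℂ) := by
  rcases le_or_gt (n * a) b with hle | hlt
  · obtain ⟨c, hc⟩ := Nat.exists_eq_add_of_le hle
    rw [phi_term_pos n a b c hc]
    simp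
  · obtain ⟨c, hc⟩ := Nat.exists_eq_add_of_lt hlt
    rw [phi_term_neg n a b c hc]
    have hg : g n a b = 0 := by unfold g; rw [if_neg (by omega)]
    rw [hg]
    simp

lemma fst_J (n M : ℕ) : (phi n (J n (2 * M))).fst = ((G n M : ℝ) : ℂ) := by
  rw [J_eq, map_sum, TrivSqZeroExt.fst_sum]
  unfold G
  rw [Complex.ofReal_sum]
  exact Finset.sum_congr rfl fun a _ => fst_term n a _

lemma snd_J {n : ℕ} (hn : Odd n) (M : ℕ) :
    ‖(phi n (J n (2 * M))).snd - (-1) ^ M * (n + 1) * ((B n M : ℝ) : ℂ)‖ ≤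
      (2 * n + 4) * M * G n M := by
  rw [J_eq, map_sum, TrivSqZeroExt.snd_sum]
  unfold G B
  rw [Complex.ofReal_sum, Finset.mul_sum, Finset.mul_sum, ← Finset.sum_sub_distrib]
  refine (norm_sum_le _ _).trans (Finset.sum_le_sum ?_)
  intro a ha
  rw [Finset.mem_range] at ha
  exact snd_term hn (by omega)

/-! ### Growth comparison -/

lemma L1 (k l x y : ℕ) : (k + l).factorial * (x ^ k * y ^ l) ≤
    k.factorial * l.factorial * (x + y) ^ (k + l) := by
  have h1 : (k + l).choose k * (x ^ k * y ^ l) ≤ (x + y) ^ (k + l) := by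
    rw [add_pow]
    have := Finset.single_le_sum (f := fun m => x ^ m * y ^ (k + l - m) * (k + l).choose m)
      (s := Finset.range (k + l + 1)) (fun i _ => Nat.zero_le _) (a := k) (by simp)
    simp only [Nat.add_sub_cancel_left] at this
    calc _ = x ^ k * y ^ l * (k + l).choose k := by ring
      _ ≤ _ := by simpa using this
  have h2 : (k + l).factorial = (k + l).choose k * k.factorial * l.factorial := by
    have := Nat.choose_mul_factorial_mul_factorial (n := k + l) (k := k) (by omega)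
    rw [Nat.add_sub_cancel_left] at this
    exact this.symm
  calc (k + l).factorial * (x ^ k * y ^ l)
      = k.factorial * l.factorial * ((k + l).choose k * (x ^ k * y ^ l)) := by rw [h2]; ring
    _ ≤ _ := Nat.mul_le_mul_left _ h1

lemma L2 (m a : ℕ) (hm : 0 < m) : (m * a).factorial ≤ a.factorial ^ m * m ^ (m * a) := by
  induction m, hm using Nat.le_induction with
  | base => simp
  | succ m hm ih =>
    have h1 := L1 (m * a) a m 1
    have hpos : 0 < m ^ (m * a) := pow_pos hm _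
    apply Nat.le_of_mul_le_mul_right _ hpos
    calc ((m + 1) * a).factorial * m ^ (m * a)
        = (m * a + a).factorial * (m ^ (m * a) * 1 ^ a) := by rw [one_pow, mul_one]; congr 2; ring
      _ ≤ (m * a).factorial * a.factorial * (m + 1) ^ (m * a + a) := h1
      _ ≤ (a.factorial ^ m * m ^ (m * a)) * a.factorial * (m + 1) ^ (m * a + a) := by gcongr
      _ = _ := by ring

lemma L3 (n a b c : ℕ) : ((n + 2) * a + b + c).factorial ≤
    a.factorial ^ (n + 2) * b.factorial * c.factorial * (n + 4) ^ ((n + 2) * a + b + c) := by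
  have h0 := L2 (n + 2) a (by omega)
  have h1 := L1 ((n + 2) * a) b (n + 2) 1
  have h2 := L1 ((n + 2) * a + b) c (n + 3) 1
  have k1 : ((n + 2) * a + b).factorial ≤
      a.factorial ^ (n + 2) * b.factorial * (n + 3) ^ ((n + 2) * a + b) := by
    have hpos : 0 < (n + 2) ^ ((n + 2) * a) := pow_pos (by omega) _
    apply Nat.le_of_mul_le_mul_right _ hpos
    calc _ = ((n + 2) * a + b).factorial * ((n + 2) ^ ((n + 2) * a) * 1 ^ b) := by
          rw [one_pow, mul_one]
      _ ≤ ((n + 2) * a).factorial * b.factorial * (n + 2 + 1) ^ ((n + 2) * a + b) := h1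
      _ ≤ (a.factorial ^ (n + 2) * (n + 2) ^ ((n + 2) * a)) * b.factorial *
            (n + 2 + 1) ^ ((n + 2) * a + b) := by gcongr
      _ = _ := by ring
  have hpos : 0 < (n + 3) ^ ((n + 2) * a + b) := pow_pos (by omega) _
  apply Nat.le_of_mul_le_mul_right _ hpos
  calc _ = ((n + 2) * a + b + c).factorial * ((n + 3) ^ ((n + 2) * a + b) * 1 ^ c) := by
        rw [one_pow, mul_one]
    _ ≤ ((n + 2) * a + b).factorial * c.factorial * (n + 3 + 1) ^ ((n + 2) * a + b + c) := h2
    _ ≤ (a.factorial ^ (n + 2) * b.factorial * (n + 3) ^ ((n + 2) * a + b)) * c.factorial *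
          (n + 3 + 1) ^ ((n + 2) * a + b + c) := by gcongr
    _ = _ := by ring

lemma L4 (n M : ℕ) (hM : 1 ≤ M) :
    n ^ (n * M) * M.factorial ^ n ≤ (n * M).factorial * M ^ n * n ^ n := by
  induction M, hM using Nat.le_induction with
  | base => simp; exact Nat.le_mul_of_pos_left _ (Nat.factorial_pos _)
  | succ M hM ih =>
    have h1 : (n * M).factorial * (n * M + 1) ^ n ≤ (n * M + n).factorial :=
      Nat.factorial_mul_pow_le_factorial
    have h2 : (n * M).factorial * (n * M) ^ n ≤ (n * (M + 1)).factorial := by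
      calc _ ≤ (n * M).factorial * (n * M + 1) ^ n := by gcongr; omega
        _ ≤ _ := by rw [mul_add, mul_one]; exact h1
    calc n ^ (n * (M + 1)) * (M + 1).factorial ^ n
        = (n ^ (n * M) * M.factorial ^ n) * (n ^ n * (M + 1) ^ n) := by
          rw [Nat.factorial_succ, mul_pow, mul_add, mul_one, pow_add]; ring
      _ ≤ ((n * M).factorial * M ^ n * n ^ n) * (n ^ n * (M + 1) ^ n) := by gcongr
      _ = ((n * M).factorial * (n * M) ^ n) * ((M + 1) ^ n * n ^ n) := by
          rw [mul_pow]; ring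
      _ ≤ (n * (M + 1)).factorial * ((M + 1) ^ n * n ^ n) := by gcongr
      _ = _ := by ring

/-- the main numerical inequality -/
lemma L5 (n M : ℕ) (hn : 1 ≤ n) (hM : 1 ≤ M) :
    (4 * n ^ n) ^ M * M.factorial ^ (n + 2) ≤
      (n * M - 1).factorial * (2 * M).factorial * (2 * n ^ (n + 1) * M ^ (n + 2)) := by
  have h1 := L4 n M hM
  have h2 := Nat.four_pow_le_two_mul_self_mul_centralBinom M (by omega)
  have h3 : M.centralBinom * (M.factorial * M.factorial) = (2 * M).factorial := by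
    have := Nat.choose_mul_factorial_mul_factorial (n := 2 * M) (k := M) (by omega)
    rw [show 2 * M - M = M by omega] at this
    rw [Nat.centralBinom_eq_two_mul_choose, ← this]; ring
  have h4 : (n * M) * (n * M - 1).factorial = (n * M).factorial :=
    Nat.mul_factorial_pred (by positivity)
  calc (4 * n ^ n) ^ M * M.factorial ^ (n + 2)
      = (n ^ (n * M) * M.factorial ^ n) * (4 ^ M * (M.factorial * M.factorial)) := by
        rw [mul_pow, ← pow_mul, pow_add]; ring
    _ ≤ ((n * M).factorial * M ^ n * n ^ n) * ((2 * M * M.centralBinom) *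
          (M.factorial * M.factorial)) := by gcongr
    _ = ((n * M).factorial * M ^ n * n ^ n) * (2 * M * (2 * M).factorial) := by
        rw [← h3]; ring
    _ = _ := by rw [← h4]; ring

lemma L6 (n : ℕ) (hn : 3 ≤ n) : (n + 4) ^ 2 < 4 * n ^ n := by
  have h1 : n ^ 3 ≤ n ^ n := Nat.pow_le_pow_right (by omega) hn
  have h2 : 3 * n ^ 2 ≤ n ^ 3 := by
    calc 3 * n ^ 2 ≤ n * n ^ 2 := Nat.mul_le_mul_right _ hn
      _ = _ := by ring
  have h3 : 3 * n ≤ n ^ 2 := by
    calc 3 * n ≤ n * n := Nat.mul_le_mul_right _ hn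
      _ = _ := by ring
  nlinarith [h1, h2, h3]

lemma L7 (n : ℕ) (hn : 3 ≤ n) (A : ℝ) (hA : 0 < A) (K : ℝ) :
    Tendsto (fun M : ℕ => A * (((4 * n ^ n : ℝ)) / (n + 4) ^ 2) ^ M / (M : ℝ) ^ (n + 3) - K * M)
      atTop atTop := by
  set q : ℝ := ((4 * n ^ n : ℝ)) / (n + 4) ^ 2 with hq
  have hq1 : 1 < q := by
    rw [hq, lt_div_iff₀ (by positivity), one_mul]
    exact_mod_cast L6 n hn
  have h1 := tendsto_pow_const_div_const_pow_of_one_lt (n + 4) hq1
  have h2 : Tendsto (fun M : ℕ => ((M : ℝ) ^ (n + 4) / q ^ M)⁻¹) atTop atTop := by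
    apply Tendsto.inv_tendsto_nhdsGT_zero
    rw [tendsto_nhdsWithin_iff]
    refine ⟨h1, ?_⟩
    filter_upwards [eventually_gt_atTop 0] with M hM
    have : (0 : ℝ) < M := by exact_mod_cast hM
    have hq0 : 0 < q := by linarith
    have h5 : (0 : ℝ) < (M : ℝ) ^ (n + 4) / q ^ M := by positivity
    exact h5
  have h3 : Tendsto (fun M : ℕ => A * ((M : ℝ) ^ (n + 4) / q ^ M)⁻¹ + (-K)) atTop atTop :=
    tendsto_atTop_add_const_right _ _ (h2.const_mul_atTop hA)
  have h4 : Tendsto (fun M : ℕ => (M : ℝ) * (A * ((M : ℝ) ^ (n + 4) / q ^ M)⁻¹ + (-K)))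
      atTop atTop := tendsto_natCast_atTop_atTop.atTop_mul_atTop₀ h3
  refine h4.congr' ?_
  filter_upwards [eventually_gt_atTop 0] with M hM
  have : (0 : ℝ) < M := by exact_mod_cast hM
  have hq0 : 0 < q := by linarith
  field_simp
  ring

lemma B_ge {n M : ℕ} (hn : 1 ≤ n) (hM : 1 ≤ M) :
    ((n * M - 1).factorial : ℝ) / (M.factorial : ℝ) ^ (n + 2) ≤ B n M := by
  have h1 : bad n M (M - M) ≤ B n M := by
    unfold B
    exact Finset.single_le_sum (f := fun a => bad n a (M - a)) (fun a _ => bad_nonneg n a _)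
      (by simp)
  refine le_trans (le_of_eq ?_) h1
  unfold bad
  have h2 : ¬ (n * M ≤ M - M) := by
    have : 0 < n * M := by positivity
    omega
  rw [if_neg h2]
  simp

lemma G_le (n M : ℕ) : ((2 * M).factorial : ℝ) * G n M ≤ (M + 1) * (n + 4) ^ (2 * M) := by
  unfold G
  rw [Finset.mul_sum]
  calc ∑ a ∈ Finset.range (M + 1), ((2 * M).factorial : ℝ) * g n a (M - a)
      ≤ ∑ a ∈ Finset.range (M + 1), ((n : ℝ) + 4) ^ (2 * M) := by
        apply Finset.sum_le_sum
        intro a ha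
        rw [Finset.mem_range] at ha
        unfold g
        split_ifs with h1
        · obtain ⟨c, hc⟩ := Nat.exists_eq_add_of_le h1
          have h2 := L3 n a (M - a) c
          have h3 : (n + 2) * a + (M - a) + c = 2 * M := by
            have : (n + 2) * a = n * a + 2 * a := by ring
            omega
          have h4 : M - a - n * a = c := by omega
          rw [h3] at h2
          rw [h4, mul_one_div, div_le_iff₀ (by positivity)]
          calc ((2 * M).factorial : ℝ) ≤ ((a.factorial ^ (n + 2) * (M - a).factorial * c.factorial *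
              (n + 4) ^ (2 * M) : ℕ) : ℝ) := by exact_mod_cast h2
            _ = _ := by push_cast; ring
        · rw [mul_zero]; positivity
    _ = _ := by simp

lemma ratio_ge {n M : ℕ} (hn : 1 ≤ n) (hM : 1 ≤ M) :
    (1 / (4 * (n : ℝ) ^ (n + 1))) * (((4 * n ^ n : ℝ)) / (n + 4) ^ 2) ^ M / (M : ℝ) ^ (n + 3) ≤
      B n M / G n M := by
  have hG := G_pos n M
  have hGle := G_le n M
  have hB := B_ge hn hM
  have h5 := L5 n M hn hM
  have hMf : (0 : ℝ) < M.factorial := by exact_mod_cast M.factorial_pos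
  have h2Mf : (0 : ℝ) < (2 * M).factorial := by exact_mod_cast (2 * M).factorial_pos
  have hM0 : (0 : ℝ) < M := by exact_mod_cast hM
  have hn0 : (0 : ℝ) < n := by exact_mod_cast hn
  have h5' : (4 * (n : ℝ) ^ n) ^ M * (M.factorial : ℝ) ^ (n + 2) ≤
      ((n * M - 1).factorial : ℝ) * ((2 * M).factorial : ℝ) *
        (2 * (n : ℝ) ^ (n + 1) * (M : ℝ) ^ (n + 2)) := by exact_mod_cast h5
  -- lower bound for `B`
  have hB2 : (4 * (n : ℝ) ^ n) ^ M / (((2 * M).factorial : ℝ) *
      (2 * (n : ℝ) ^ (n + 1) * (M : ℝ) ^ (n + 2))) ≤ B n M := by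
    refine le_trans ?_ hB
    rw [div_le_div_iff₀ (by positivity) (by positivity)]
    calc _ ≤ _ := h5'
      _ = _ := by ring
  -- upper bound for `G`
  have hG2 : G n M ≤ (2 * M) * ((n : ℝ) + 4) ^ (2 * M) / ((2 * M).factorial : ℝ) := by
    rw [le_div_iff₀ h2Mf, mul_comm]
    refine hGle.trans ?_
    have : ((M : ℝ) + 1) ≤ 2 * M := by
      have : (1 : ℝ) ≤ M := by exact_mod_cast hM
      linarith
    exact mul_le_mul_of_nonneg_right this (by positivity)
  calc (1 / (4 * (n : ℝ) ^ (n + 1))) * (((4 * n ^ n : ℝ)) / (n + 4) ^ 2) ^ M / (M : ℝ) ^ (n + 3)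
      = ((4 * (n : ℝ) ^ n) ^ M / (((2 * M).factorial : ℝ) *
      (2 * (n : ℝ) ^ (n + 1) * (M : ℝ) ^ (n + 2)))) /
        ((2 * M) * ((n : ℝ) + 4) ^ (2 * M) / ((2 * M).factorial : ℝ)) := by
        rw [div_pow, ← pow_mul]
        field_simp
        ring
    _ ≤ B n M / G n M := by
        exact div_le_div₀ (Finset.sum_nonneg fun a _ => bad_nonneg n a _) hB2 hG hG2

lemma exists_primitive (n : ℕ) : ∃ α : Coh n →ₗ[ℂ] ℂ, Primitive n α ∧
    ∀ c : ℂ, α ≠ c • (pt n).toLinearMap := by
  refine ⟨(TrivSqZeroExt.sndHom ℂ ℂ).comp (phi n).toLinearMap, ?_, ?_⟩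
  · intro β
    simp [phi_c1]
  · intro c hc
    have h1 := congrArg (fun f => f (h n)) hc
    simp [phi_h, pt_eq] at h1

lemma alpha_h_ne {n : ℕ} {α : Coh n →ₗ[ℂ] ℂ} (hα : Primitive n α)
    (hne : ∀ c : ℂ, α ≠ c • (pt n).toLinearMap) : α (h n) ≠ 0 := by
  intro h0
  apply hne (α 1)
  apply LinearMap.ext
  intro x
  rw [functional_eq hα x, h0, mul_zero, add_zero, ← pt_eq, LinearMap.smul_apply,
    AlgHom.toLinearMap_apply, smul_eq_mul, mul_comm]

theorem tendsto_norm {n : ℕ} (hodd : Odd n) (hn : 3 ≤ n) {α : Coh n →ₗ[ℂ] ℂ}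
    (hα : Primitive n α) (hne : ∀ c : ℂ, α ≠ c • (pt n).toLinearMap) :
    Tendsto (fun M : ℕ => ‖α (J n (2 * M)) / pt n (J n (2 * M))‖) atTop atTop := by
  have hh := alpha_h_ne hα hne
  have hpos : 0 < ‖α (h n)‖ := norm_pos_iff.2 hh
  have h7 := L7 n hn (‖α (h n)‖ * ((n + 1) * (1 / (4 * (n : ℝ) ^ (n + 1)))))
    (by
      have : (0 : ℝ) < n := by exact_mod_cast (by omega : 0 < n)
      positivity) (‖α (h n)‖ * (2 * n + 4))
  have h8 := tendsto_atTop_add_const_right atTop (-‖α 1‖) h7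
  refine tendsto_atTop_mono' _ ?_ h8
  filter_upwards [eventually_ge_atTop 1] with M hM
  have hG := G_pos n M
  have hGc : ((G n M : ℝ) : ℂ) ≠ 0 := by exact_mod_cast hG.ne'
  have hs := snd_J hodd M
  have hr := ratio_ge (n := n) (by omega) hM
  have hB0 : 0 ≤ B n M := Finset.sum_nonneg fun a _ => bad_nonneg n a _
  rw [functional_eq hα (J n (2 * M)), pt_eq, fst_J]
  set S : ℂ := (phi n (J n (2 * M))).snd with hS
  have e1 : (((G n M : ℝ) : ℂ) * α 1 + S * α (h n)) / ((G n M : ℝ) : ℂ)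
      = S / ((G n M : ℝ) : ℂ) * α (h n) - (-α 1) := by
    field_simp
    ring
  have h9 : (n + 1) * B n M - (2 * n + 4) * M * G n M ≤ ‖S‖ := by
    have e2 : ‖((-1) ^ M * (n + 1) * ((B n M : ℝ) : ℂ))‖ = (n + 1) * B n M := by
      rw [norm_mul, norm_mul, norm_pow, norm_neg, norm_one, one_pow, one_mul, Complex.norm_real,
        Real.norm_of_nonneg hB0]
      have : ((n : ℂ) + 1) = ((n + 1 : ℕ) : ℂ) := by push_cast; ring
      rw [this, Complex.norm_natCast]; push_cast; ring
    have e3 := norm_sub_norm_le ((-1) ^ M * (n + 1) * ((B n M : ℝ) : ℂ)) S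
    rw [e2, norm_sub_rev] at e3
    linarith
  have h10 : (n + 1) * (B n M / G n M) - (2 * n + 4) * M ≤ ‖S / ((G n M : ℝ) : ℂ)‖ := by
    rw [norm_div, Complex.norm_real, Real.norm_of_nonneg hG.le, le_div_iff₀ hG]
    refine le_trans (le_of_eq ?_) h9
    field_simp
  rw [e1]
  have h11 : ‖S / ((G n M : ℝ) : ℂ) * α (h n)‖ - ‖-α 1‖ ≤
      ‖S / ((G n M : ℝ) : ℂ) * α (h n) - (-α 1)‖ := norm_sub_norm_le _ _
  rw [norm_mul, norm_neg] at h11
  have h12 := mul_le_mul_of_nonneg_left h10 hpos.le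
  have h13 := mul_le_mul_of_nonneg_left hr (by positivity : (0 : ℝ) ≤ ‖α (h n)‖ * (n + 1))
  calc _ = ‖α (h n)‖ * (n + 1) * ((1 / (4 * (n : ℝ) ^ (n + 1))) *
        (((4 * n ^ n : ℝ)) / (n + 4) ^ 2) ^ M / (M : ℝ) ^ (n + 3)) -
        ‖α (h n)‖ * ((2 * n + 4) * M) - ‖α 1‖ := by ring
    _ ≤ ‖α (h n)‖ * (n + 1) * (B n M / G n M) - ‖α (h n)‖ * ((2 * n + 4) * M) - ‖α 1‖ := by
        linarith
    _ = ‖α (h n)‖ * ((n + 1) * (B n M / G n M) - (2 * n + 4) * M) - ‖α 1‖ := by ring
    _ ≤ ‖α (h n)‖ * ‖S / ((G n M : ℝ) : ℂ)‖ - ‖α 1‖ := by linarith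
    _ ≤ _ := by rw [mul_comm]; exact h11

/-- For every odd `n ≥ 3`, the Fano manifold `F_n = P(O ⊕ O(n))` over `P^(n+1)` (of index `2`)
violates the Apéry limit formula, for every `α` with `α ∩ c₁ = 0` not proportional to `[pt]`. -/
theorem result (n : ℕ) (hodd : Odd n) (hn : 3 ≤ n) :
    (∀ M : ℕ, pt n (J n (2 * M)) ≠ 0) ∧
    (∃ α : Coh n →ₗ[ℂ] ℂ, Primitive n α ∧ ∀ c : ℂ, α ≠ c • (pt n).toLinearMap) ∧
    (∀ α : Coh n →ₗ[ℂ] ℂ, Primitive n α → (∀ c : ℂ, α ≠ c • (pt n).toLinearMap) →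
      Tendsto (fun M : ℕ => ‖α (J n (2 * M)) / pt n (J n (2 * M))‖) atTop atTop ∧
      ¬ Tendsto (fun M : ℕ => α (J n (2 * M)) / pt n (J n (2 * M))) atTop
        (𝓝 (α (gammaClass n)))) := by
  refine ⟨?_, exists_primitive n, ?_⟩
  · intro M
    rw [pt_eq, fst_J]
    exact_mod_cast (G_pos n M).ne'
  · intro α hα hne
    have h1 := tendsto_norm hodd hn hα hne
    exact ⟨h1, fun h2 => not_tendsto_nhds_of_tendsto_atTop h1 _ h2.norm⟩

end Pool.Agent.Results.MP_12343a_ag.AperyLimitsDiverge
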